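import Mathlib
import Pool.Agent.V11275.DE
import Pool.Agent.Results.MP_b298ef_co.OddMultiplicities

/-!
# Plateaued APN functions never reach the maximal exclude multiplicity
-/

namespace Pool.Agent.Results.MP_4cdc07_co.NeverMaximal

open Finset Pool.Agent.Results.MP_b298ef_co.OddMultiplicities

/-- `F` is APN: for all `a ≠ 0` and `b`, the equation `F x + F (x + a) = b` has at most `2`
solutions. -/
def APN {n : ℕ} (F : V n → V n) : Prop :=
  ∀ a : V n, a ≠ 0 → ∀ b : V n, (univ.filter (fun x => F x + F (x + a) = b)).card ≤ 2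

lemma isAPN {n : ℕ} {F : V n → V n} (hF : APN F) : IsAPN F := by
  intro a ha b
  rcases Finset.eq_empty_or_nonempty (univ.filter (fun x => F x + F (x + a) = b)) with h | ⟨x, hx⟩
  · left; rw [h]; rfl
  · right
    apply le_antisymm (hF a ha b)
    have hx' : F x + F (x + a) = b := (mem_filter.mp hx).2
    have hy : x + a ∈ univ.filter (fun x => F x + F (x + a) = b) := by
      rw [mem_filter]
      refine ⟨mem_univ _, ?_⟩
      rw [add_assoc, add_self, add_zero, add_comm (F (x + a)), hx']
    have hne : x ≠ x + a := by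
      intro h
      apply ha
      have := congrArg (fun t => x + t) h
      simp only [← add_assoc, add_self, zero_add] at this
      exact this.symm
    calc 2 = ({x, x + a} : Finset (V n)).card := (card_pair hne).symm
      _ ≤ _ := card_le_card (by
        intro t ht
        rw [mem_insert, mem_singleton] at ht
        rcases ht with rfl | rfl
        · exact hx
        · exact hy)

/-! ### adapted coordinates -/

/-- the basis vectors -/
def bv {n : ℕ} (c : V n) (j i : Fin n) : V n :=
  if i = j then Pi.single j 1 else Pi.single i 1 + c i • Pi.single j 1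

/-- the vector of a set of indices -/
def Bv {n : ℕ} (c : V n) (j : Fin n) (T : Finset (Fin n)) : V n := ∑ i ∈ T, bv c j i

lemma bv_dot {n : ℕ} (c : V n) (j : Fin n) (hj : c j = 1) (i : Fin n) :
    bv c j i ⬝ᵥ c = if i = j then 1 else 0 := by
  unfold bv
  split_ifs with h
  · rw [single_dotProduct, hj, mul_one]
  · rw [add_dotProduct, smul_dotProduct, single_dotProduct, single_dotProduct, hj]
    have : ∀ t : ZMod 2, 1 * t + t • (1 * 1) = 0 := by decide
    exact this (c i)

lemma Bv_dot {n : ℕ} (c : V n) (j : Fin n) (hj : c j = 1) (T : Finset (Fin n)) :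
    Bv c j T ⬝ᵥ c = if j ∈ T then 1 else 0 := by
  unfold Bv
  rw [sum_dotProduct]
  simp only [bv_dot c j hj]
  rw [sum_ite_eq' T j]

lemma Bv_apply {n : ℕ} (c : V n) (j : Fin n) (T : Finset (Fin n)) (i : Fin n) (hi : i ≠ j) :
    Bv c j T i = if i ∈ T then 1 else 0 := by
  unfold Bv
  rw [Finset.sum_apply]
  have h : ∀ l ∈ T, bv c j l i = if l = i then 1 else 0 := by
    intro l _
    unfold bv
    split_ifs with h1 h2 h2
    · exact absurd (h2.symm.trans h1) hi
    · rw [Pi.single_apply, if_neg hi]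
    · subst h2
      rw [Pi.add_apply, Pi.smul_apply, Pi.single_apply, Pi.single_apply, if_pos rfl, if_neg hi]
      simp
    · rw [Pi.add_apply, Pi.smul_apply, Pi.single_apply, Pi.single_apply, if_neg (fun h => h2 h.symm),
        if_neg hi]
      simp
  rw [sum_congr rfl h, sum_ite_eq' T i]

lemma Bv_inj {n : ℕ} (c : V n) (j : Fin n) (hj : c j = 1) : Function.Injective (Bv c j) := by
  intro S T h
  ext i
  by_cases hi : i = j
  · subst hi
    have h1 := Bv_dot c i hj S
    rw [h, Bv_dot c i hj T] at h1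
    by_cases a : i ∈ S <;> by_cases b : i ∈ T <;> simp_all
  · have h1 := Bv_apply c j S i hi
    rw [h, Bv_apply c j T i hi] at h1
    by_cases a : i ∈ S <;> by_cases b : i ∈ T <;> simp_all

lemma Bv_bij {n : ℕ} (c : V n) (j : Fin n) (hj : c j = 1) : Function.Bijective (Bv c j) := by
  rw [Fintype.bijective_iff_injective_and_card]
  refine ⟨Bv_inj c j hj, ?_⟩
  simp [ZMod.card]

lemma Bv_empty {n : ℕ} (c : V n) (j : Fin n) : Bv c j ∅ = 0 := by simp [Bv]

lemma chi_Bv {n : ℕ} (c : V n) (j : Fin n) (S : Finset (Fin n)) (y : V n) :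
    chi (Bv c j S ⬝ᵥ y) = ∏ i ∈ S, chi (bv c j i ⬝ᵥ y) := by
  unfold Bv
  induction S using Finset.induction_on with
  | empty => simp [chi_zero]
  | insert a S ha ih => rw [sum_insert ha, prod_insert ha, add_dotProduct, chi_add, ih]

/-- the Walsh coefficients over a subspace of dimension `t` sum to a multiple of `2 ^ t` -/
lemma sum_dvd {n : ℕ} (F : V n → V n) (c : V n) (j : Fin n) (T : Finset (Fin n)) :
    (2 : ℤ) ^ T.card ∣ ∑ S ∈ T.powerset, W F 0 (Bv c j S) := by
  have h1 : ∑ S ∈ T.powerset, W F 0 (Bv c j S) =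
      ∑ x : V n, ∏ i ∈ T, (1 + chi (bv c j i ⬝ᵥ F x)) := by
    simp only [W_eq]
    rw [sum_comm]
    apply sum_congr rfl
    intro x _
    rw [prod_one_add]
    apply sum_congr rfl
    intro S _
    rw [zero_dotProduct, chi_zero, mul_one, chi_Bv]
  rw [h1]
  apply dvd_sum
  intro x _
  have h2 : ∀ t : ZMod 2, (2 : ℤ) ∣ 1 + chi t := by
    intro t
    fin_cases t
    · exact ⟨1, rfl⟩
    · exact ⟨0, rfl⟩
  calc (2 : ℤ) ^ T.card = ∏ i ∈ T, (2 : ℤ) := by rw [prod_const]
    _ ∣ _ := prod_dvd_prod_of_dvd _ _ (fun i _ => h2 _)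

/-- **No plateaued APN function in even dimension at least four has an exclude point of
multiplicity `(2 ^ n - 1) / 3`.** -/
theorem main {n k : ℕ} (hk : 2 ≤ k) (hn : n = k + k) {F : V n → V n} (hA : IsAPN F)
    (hP : IsPlateaued F) (a b : V n) (hab : b ≠ F a) : (N3 F a b : ℤ) < 2 ^ (n + 1) - 2 := by
  classical
  choose! e he using fun v => exists_exp hP v
  let L : V n → ℤ := fun v => if v = 0 then 2 ^ n * 2 ^ n else 2 ^ (2 * e v)
  have hL : ∀ u v, W F u v ^ 3 = L v * W F u v := by
    intro u v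
    by_cases hv : v = 0
    · subst hv
      simp only [L, if_pos, W_zero]
      by_cases hu : u = 0
      · simp [hu]; ring
      · simp [hu]
    · simp only [L, if_neg hv]
      rcases (he v hv).2.1 u with h | h
      · rw [h]; ring
      · rw [← h]; ring
  set c := F a + b with hc
  have hc0 : c ≠ 0 := fun h => hab (Pool.Agent.Results.MP_b298ef_co.OddMultiplicities.add_eq_zero'.mp h).symm
  by_contra hcon
  push Not at hcon
  let S : Finset (V n) := univ.filter (fun v => v ⬝ᵥ c = 1)
  have hS0 : ∀ v ∈ S, v ≠ 0 := by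
    rintro v hv rfl
    rw [mem_filter, zero_dotProduct] at hv
    exact absurd hv.2 (by decide)
  have hchi : ∀ v : V n, chi (v ⬝ᵥ c) = 1 - 2 * (if v ∈ S then 1 else 0) := by
    intro v
    have h2 : ∀ t : ZMod 2, chi t = 1 - 2 * (if t = 1 then 1 else 0) := by decide
    rw [h2]
    simp [S]
  have hE := key_sum F L hL a b
  have hE0 := key_sum F L hL a (F a)
  rw [add_self] at hE0
  simp only [dotProduct_zero, chi_zero, mul_one] at hE0
  rw [N3_graph hA] at hE0
  have h2n : (0 : ℤ) < 2 ^ n := by positivity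
  -- the sum over the complement of the hyperplane
  have hsum : ∑ v : V n, L v * chi (v ⬝ᵥ c) = ∑ v : V n, L v - 2 * ∑ v ∈ S, L v := by
    have h2 : ∀ v : V n, L v * chi (v ⬝ᵥ c) = L v - (if v ∈ S then 2 * L v else 0) := by
      intro v
      rw [hchi]
      split_ifs <;> ring
    rw [sum_congr rfl (fun v _ => h2 v), sum_sub_distrib, sum_ite_mem, univ_inter, mul_sum]
  have hScard : 2 * (S.card : ℤ) = 2 ^ n := by
    have h1 := sum_chi c
    rw [if_neg hc0] at h1
    have h2 : ∑ v : V n, chi (v ⬝ᵥ c) = 2 ^ n - 2 * (S.card : ℤ) := by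
      simp only [hchi]
      rw [sum_sub_distrib, ← mul_sum, sum_boole]
      simp [ZMod.card, S]
    linarith
  have hSle : 2 * ∑ v ∈ S, L v ≤ 2 ^ n * 2 ^ n := by
    have h1 : 2 ^ n * (2 ^ (n + 1) - 2 : ℤ) ≤ 2 ^ n * (N3 F a b : ℤ) :=
      mul_le_mul_of_nonneg_left hcon h2n.le
    rw [hE, hsum, ← hE0, pow_succ] at h1
    linarith
  have hLge : ∀ v ∈ S, (2 : ℤ) ^ n ≤ L v := by
    intro v hv
    simp only [L, if_neg (hS0 v hv)]
    exact pow_le_pow_right₀ (by norm_num) (he v (hS0 v hv)).1
  have hzero : ∑ v ∈ S, (L v - 2 ^ n) = 0 := by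
    apply le_antisymm
    · rw [sum_sub_distrib, sum_const, nsmul_eq_mul]
      have : 2 * ((S.card : ℤ) * 2 ^ n) = 2 ^ n * 2 ^ n := by rw [← mul_assoc, hScard]
      linarith
    · exact sum_nonneg (fun v hv => sub_nonneg.mpr (hLge v hv))
  have hbent : ∀ v ∈ S, e v = k := by
    intro v hv
    have h1 := (sum_eq_zero_iff_of_nonneg (fun v hv => sub_nonneg.mpr (hLge v hv))).mp hzero v hv
    simp only [L, if_neg (hS0 v hv)] at h1
    have h2 : (2 : ℤ) ^ (2 * e v) = 2 ^ n := by linarith
    have h3 := Int.pow_right_injective (a := 2) (by norm_num) h2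
    omega
  have hSsum : 2 * ∑ v ∈ S, L v = 2 ^ n * 2 ^ n := by
    rw [sum_sub_distrib, sum_const, nsmul_eq_mul] at hzero
    have : 2 * ((S.card : ℤ) * 2 ^ n) = 2 ^ n * 2 ^ n := by rw [← mul_assoc, hScard]
    linarith
  -- the rest
  let H : Finset (V n) := univ.filter (fun v => v ≠ 0 ∧ v ⬝ᵥ c = 0)
  have hsplit : ∑ v : V n, L v = L 0 + ∑ v ∈ S, L v + ∑ v ∈ H, L v := by
    rw [← add_sum_erase univ L (mem_univ 0), add_assoc]
    congr 1
    have hd : Disjoint S H := by
      rw [disjoint_left]
      intro v hv hv'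
      rw [mem_filter] at hv hv'
      rw [hv.2] at hv'
      exact absurd hv'.2.2 (by decide)
    rw [← sum_union hd]
    congr 1
    ext v
    have h2 : ∀ t : ZMod 2, t = 1 ∨ t = 0 := by decide
    simp only [mem_erase, mem_univ, and_true, mem_union, S, H, mem_filter, true_and]
    constructor
    · intro hv
      rcases h2 (v ⬝ᵥ c) with h | h
      · exact Or.inl h
      · exact Or.inr ⟨hv, h⟩
    · rintro (h | h)
      · rintro rfl
        rw [zero_dotProduct] at h
        exact absurd h (by decide)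
      · exact h.1
  -- the bent indicator
  let o : V n → ℕ := fun v => if v ≠ 0 ∧ e v = k then 1 else 0
  have hHL : ∑ v ∈ H, L v = 2 ^ n * ∑ v ∈ H, (4 : ℤ) ^ (e v - k) := by
    rw [mul_sum]
    apply sum_congr rfl
    intro v hv
    have hv0 : v ≠ 0 := (mem_filter.mp hv).2.1
    simp only [L, if_neg hv0]
    have h1 := (he v hv0).1
    have h4 : (4 : ℤ) = 2 ^ 2 := by norm_num
    rw [h4, ← pow_mul, ← pow_add]
    congr 1
    omega
  have hHsum : 2 * ∑ v ∈ H, (4 : ℤ) ^ (e v - k) = 3 * 2 ^ n - 4 := by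
    have h0 : L 0 = 2 ^ n * 2 ^ n := by simp only [L, if_pos]
    rw [hsplit, h0, hHL] at hE0
    apply mul_left_cancel₀ h2n.ne'
    linarith
  have hmod : (4 : ℤ) ∣ ∑ v ∈ H, ((4 : ℤ) ^ (e v - k) - (o v : ℤ)) := by
    apply dvd_sum
    intro v hv
    have hv0 : v ≠ 0 := (mem_filter.mp hv).2.1
    by_cases h : e v = k
    · simp [o, hv0, h]
    · simp only [o, h, and_false, if_false, Nat.cast_zero, sub_zero]
      have h1 := (he v hv0).1
      exact dvd_pow_self 4 (by omega)
  -- the normalised Walsh coefficient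
  have hw : ∀ v : V n, ∃ w : ℤ, W F 0 v = 2 ^ k * w ∧ Even (w - (o v : ℤ)) := by
    intro v
    by_cases hv : v = 0
    · subst hv
      refine ⟨2 ^ k, ?_, ?_⟩
      · rw [W_zero, if_pos rfl, hn, pow_add]
      · simp only [o, ne_eq, not_true_eq_false, false_and, if_false, Nat.cast_zero, sub_zero]
        exact even_two.pow_of_ne_zero (by omega)
    · obtain ⟨h1, h2, h3⟩ := he v hv
      have hek : k ≤ e v := by omega
      obtain ⟨d, hd⟩ := Nat.exists_eq_add_of_le hek
      rcases h2 0 with h4 | h4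
      · refine ⟨0, by rw [h4]; ring, ?_⟩
        have hd0 : e v ≠ k := by
          intro hh
          have h5 := h3 (by omega) 0
          rw [h4] at h5
          simp at h5
          omega
        simp [o, hd0]
      · have h5 : W F 0 v = 2 ^ (e v) ∨ W F 0 v = -2 ^ (e v) := by
          have h6 : W F 0 v ^ 2 = ((2 : ℤ) ^ (e v)) ^ 2 := by rw [h4, ← pow_mul, mul_comm]
          exact sq_eq_sq_iff_eq_or_eq_neg.mp h6
        rcases Nat.eq_zero_or_pos d with hd0 | hd0
        · subst hd0
          have hek' : e v = k := by omega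
          rcases h5 with h5 | h5
          · refine ⟨1, by rw [h5, hek']; simp, ?_⟩
            simp [o, hv, hek']
          · refine ⟨-1, by rw [h5, hek']; simp, ?_⟩
            simp only [o, hv, hek', ne_eq, not_false_eq_true, and_self, if_true, Nat.cast_one]
            decide
        · have he3 : Even ((2 : ℤ) ^ d) := even_two.pow_of_ne_zero (by omega)
          have hne : e v ≠ k := by omega
          rcases h5 with h5 | h5
          · refine ⟨2 ^ d, by rw [h5, hd, pow_add], ?_⟩
            simpa [o, hne] using he3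
          · refine ⟨-2 ^ d, by rw [h5, hd, pow_add]; ring, ?_⟩
            simpa [o, hne] using he3
  choose w hw1 hw2 using hw
  obtain ⟨j, hj⟩ : ∃ j, c j ≠ 0 := by
    by_contra h
    push Not at h
    exact hc0 (funext h)
  have hj1 : c j = 1 := by
    have : ∀ t : ZMod 2, t ≠ 0 → t = 1 := by decide
    exact this _ hj
  -- parity on large subspaces
  have hpar : ∀ T : Finset (Fin n), k < T.card → Even (∑ U ∈ T.powerset, o (Bv c j U)) := by
    intro T hT
    have h1 := sum_dvd F c j T
    have h2 : ∑ U ∈ T.powerset, W F 0 (Bv c j U) = 2 ^ k * ∑ U ∈ T.powerset, w (Bv c j U) := by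
      rw [mul_sum]
      exact sum_congr rfl (fun U _ => hw1 _)
    rw [h2] at h1
    have h3 : (2 : ℤ) ^ k * 2 ∣ 2 ^ k * ∑ U ∈ T.powerset, w (Bv c j U) := by
      rw [← pow_succ]
      exact (pow_dvd_pow 2 (by omega)).trans h1
    have h4 : (2 : ℤ) ∣ ∑ U ∈ T.powerset, w (Bv c j U) :=
      (mul_dvd_mul_iff_left (by positivity)).mp h3
    have h5 : Even (∑ U ∈ T.powerset, (w (Bv c j U) - (o (Bv c j U) : ℤ))) :=
      even_sum _ (fun U _ => hw2 _)
    rw [sum_sub_distrib] at h5
    have h6 : Even ((∑ U ∈ T.powerset, o (Bv c j U) : ℕ) : ℤ) := by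
      push_cast
      have h7 := (even_iff_two_dvd.mpr h4).sub h5
      simpa using h7
    exact (Int.even_coe_nat _).mp h6
  have hoS : ∀ U : Finset (Fin n), j ∈ U → o (Bv c j U) = 1 := by
    intro U hU
    have h1 : Bv c j U ∈ S := by
      simp only [S, mem_filter, mem_univ, true_and]
      rw [Bv_dot c j hj1, if_pos hU]
    simp only [o, hS0 _ h1, hbent _ h1, ne_eq, not_false_eq_true, and_self, if_true]
  have hMcard : (univ.erase j : Finset (Fin n)).card = n - 1 := by
    rw [card_erase_of_mem (mem_univ _)]; simp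
  have h4dvd : 4 ∣ ∑ T ∈ (univ.erase j : Finset (Fin n)).powerset, o (Bv c j T) := by
    apply Pool.Agent.V11275.DE.four_dvd (d := k - 1)
    · rw [hMcard]; omega
    · rw [hMcard]; omega
    · intro T _
      simp only [o]
      split_ifs <;> norm_num
    · intro T hT hcT
      have hjT : j ∉ T := fun h => (mem_erase.mp (hT h)).1 rfl
      have h1 := hpar (insert j T) (by rw [card_insert_of_notMem hjT]; omega)
      rw [sum_powerset_insert hjT] at h1
      have h2 : ∑ U ∈ T.powerset, o (Bv c j (insert j U)) = 2 ^ T.card := by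
        rw [sum_congr rfl (fun U _ => hoS _ (mem_insert_self j U)), sum_const, card_powerset]
        simp
      rw [h2] at h1
      have h3 : Even (2 ^ T.card) := (even_two (α := ℕ)).pow_of_ne_zero (by omega)
      exact (Nat.even_add.mp h1).mpr h3
  have hcount : ∑ T ∈ (univ.erase j : Finset (Fin n)).powerset, o (Bv c j T) = ∑ v ∈ H, o v := by
    have h1 : ∑ T ∈ (univ.erase j : Finset (Fin n)).powerset, o (Bv c j T) =
        ∑ v ∈ univ.filter (fun v : V n => v ⬝ᵥ c = 0), o v := by
      apply sum_bij (fun T _ => Bv c j T)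
      · intro T hT
        have hjT : j ∉ T := fun h => (mem_erase.mp (mem_powerset.mp hT h)).1 rfl
        rw [mem_filter, Bv_dot c j hj1, if_neg hjT]
        exact ⟨mem_univ _, rfl⟩
      · intro T _ T' _ h
        exact Bv_inj c j hj1 h
      · intro v hv
        obtain ⟨T, hT⟩ := (Bv_bij c j hj1).2 v
        refine ⟨T, ?_, hT⟩
        rw [mem_filter, ← hT, Bv_dot c j hj1] at hv
        rw [mem_powerset]
        intro i hi
        rw [mem_erase]
        refine ⟨?_, mem_univ _⟩
        rintro rfl
        rw [if_pos hi] at hv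
        exact absurd hv.2 (by decide)
      · intro T _; rfl
    rw [h1]
    symm
    apply sum_subset
    · intro v hv
      rw [mem_filter] at hv ⊢
      exact ⟨mem_univ _, hv.2.2⟩
    · intro v hv hv'
      have : v = 0 := by
        by_contra hv0
        exact hv' (by rw [mem_filter]; exact ⟨mem_univ _, hv0, (mem_filter.mp hv).2⟩)
      simp [o, this]
  rw [hcount] at h4dvd
  obtain ⟨q, hq⟩ := h4dvd
  obtain ⟨r, hr⟩ := hmod
  rw [sum_sub_distrib] at hr
  have hq' : ∑ v ∈ H, (o v : ℤ) = 4 * q := by exact_mod_cast hq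
  rw [hq'] at hr
  obtain ⟨m, hm⟩ := Nat.exists_eq_add_of_le hk
  have h16 : (2 : ℤ) ^ n = 16 * 2 ^ (2 * m) := by
    have : n = 4 + 2 * m := by omega
    rw [this, pow_add]
    norm_num
  rw [h16] at hHsum
  omega

/-- For every even `n ≥ 4` and every plateaued APN function `F`, every point outside the graph of
`F` has exclude multiplicity smaller than `(2 ^ n - 1) / 3`. -/
theorem result : ∀ n : ℕ, 4 ≤ n → Even n → ∀ F : V n → V n, APN F → IsPlateaued F →
    ∀ p : V n × V n, p ∉ graph F → (exclMult F p : ℝ) < (2 ^ n - 1) / 3 := by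
  intro n hn hev F hA hP p hp
  obtain ⟨k, hk⟩ := hev
  have h1 := main (k := k) (by omega) hk (isAPN hA) hP p.1 p.2
    (fun h => hp (mem_graph.mpr h))
  rw [← six_mul F p hp] at h1
  have h2 : ((6 * exclMult F p : ℕ) : ℝ) < 2 ^ (n + 1) - 2 := by exact_mod_cast h1
  push_cast at h2
  rw [pow_succ] at h2
  linarith

end Pool.Agent.Results.MP_4cdc07_co.NeverMaximal
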